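import Pool.Agent.PST.StmtsDZ

/-!
# Squad PST, row FMA: the first order term of a regular deformation
-/

open scoped BigOperators TensorProduct PowerSeries

noncomputable section

namespace Pool.Agent.PST.H53

open Pool.Agent.PFC (tw IsTv)
open Pool.Agent.PFD.D2b (FrR)
open Pool.Agent.PSS

section dm

variable {k A W : Type} [CommRing k] [Ring A] [Algebra k A] [Group W] {om : W →* A} (D : Dm k om)

theorem sq_mul (x y : D.R) : D.sq (x * y) = D.mul (D.sq x) (D.sq y) := by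
  conv_lhs => rw [← D.of_sq x, ← D.of_sq y, ← D.of_mul, D.sq_of]

theorem sq_mul0 (x y : D.R) : D.sq (x * y) 0 = D.sq x 0 * D.sq y 0 := by
  rw [sq_mul, Dm.mul, Finset.Nat.antidiagonal_zero, Finset.sum_singleton,
    Finset.Nat.antidiagonal_zero, Finset.sum_singleton, D.m0]

theorem sq_mul1 (x y : D.R) : D.sq (x * y) 1 =
    D.sq x 0 * D.sq y 1 + D.sq x 1 * D.sq y 0 + D.m 1 (D.sq x 0) (D.sq y 0) := by
  have h1 : (Finset.HasAntidiagonal.antidiagonal 1 : Finset (ℕ × ℕ)) = {(0, 1), (1, 0)} := rfl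
  rw [sq_mul, Dm.mul, h1, Finset.sum_pair (by decide)]
  change ∑ q ∈ Finset.HasAntidiagonal.antidiagonal 1, D.m 0 (D.sq x q.1) (D.sq y q.2) +
    ∑ q ∈ Finset.HasAntidiagonal.antidiagonal 0, D.m 1 (D.sq x q.1) (D.sq y q.2) = _
  rw [h1, Finset.sum_pair (by decide), Finset.Nat.antidiagonal_zero, Finset.sum_singleton, D.m0,
    D.m0]

theorem sq_add (x y : D.R) (n : ℕ) : D.sq (x + y) n = D.sq x n + D.sq y n := by
  have h : D.sq (x + y) = D.sq x + D.sq y := by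
    conv_lhs => rw [← D.of_sq x, ← D.of_sq y, ← D.of_add, D.sq_of]
  rw [h]
  rfl

theorem sq_neg (x : D.R) (n : ℕ) : D.sq (-x) n = -D.sq x n := by
  have h : D.sq (-x) = -D.sq x := by
    conv_lhs => rw [← D.of_sq x, ← D.of_neg, D.sq_of]
  rw [h]
  rfl

theorem sq_sub (x y : D.R) (n : ℕ) : D.sq (x - y) n = D.sq x n - D.sq y n := by
  rw [sub_eq_add_neg, sq_add, sq_neg, sub_eq_add_neg]

theorem sq_one0 : D.sq (1 : D.R) 0 = 1 := by
  rw [← D.of_one, D.sq_of]
  rfl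

theorem sq_one1 : D.sq (1 : D.R) 1 = 0 := by
  rw [← D.of_one, D.sq_of]
  rfl

theorem sq_X1 (x : D.R) : D.sq ((PowerSeries.X : PowerSeries k) • x) 1 = D.sq x 0 := by
  have h : D.sq ((PowerSeries.X : PowerSeries k) • x) = Dm.smulq (PowerSeries.X : PowerSeries k) (D.sq x) := by
    conv_lhs => rw [← D.of_sq x, ← D.of_smul, D.sq_of]
  have h1 : (Finset.HasAntidiagonal.antidiagonal 1 : Finset (ℕ × ℕ)) = {(0, 1), (1, 0)} := rfl
  rw [h, Dm.smulq, h1, Finset.sum_pair (by decide)]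
  change (PowerSeries.coeff 0) (PowerSeries.X : PowerSeries k) • D.sq x 1 +
    (PowerSeries.coeff 1) (PowerSeries.X : PowerSeries k) • D.sq x 0 = _
  rw [PowerSeries.coeff_zero_X, PowerSeries.coeff_one_X, zero_smul, one_smul, zero_add]

theorem sq_X21 (x : D.R) : D.sq ((PowerSeries.X : PowerSeries k) ^ 2 • x) 1 = 0 := by
  have h : D.sq ((PowerSeries.X : PowerSeries k) ^ 2 • x) =
      Dm.smulq ((PowerSeries.X : PowerSeries k) ^ 2) (D.sq x) := by
    conv_lhs => rw [← D.of_sq x, ← D.of_smul, D.sq_of]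
  have h1 : (Finset.HasAntidiagonal.antidiagonal 1 : Finset (ℕ × ℕ)) = {(0, 1), (1, 0)} := rfl
  rw [h, Dm.smulq, h1, Finset.sum_pair (by decide)]
  change (PowerSeries.coeff 0) ((PowerSeries.X : PowerSeries k) ^ 2) • D.sq x 1 +
    (PowerSeries.coeff 1) ((PowerSeries.X : PowerSeries k) ^ 2) • D.sq x 0 = _
  rw [PowerSeries.coeff_X_pow, PowerSeries.coeff_X_pow, if_neg (by norm_num), if_neg (by norm_num),
    zero_smul, zero_smul, zero_add]

theorem sq_w_mul (g : W) (x : D.R) (n : ℕ) : D.sq (D.w g * x) n = om g * D.sq x n := by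
  conv_lhs => rw [← D.of_sq x, D.w_mul_of, D.sq_of]

theorem sq_w0 (g : W) : D.sq (D.w g) 0 = om g := by
  have h : D.w g = D.of (Dm.cst (om g)) := rfl
  rw [h, D.sq_of]
  rfl

theorem sq_w1 (g : W) : D.sq (D.w g) 1 = 0 := by
  have h : D.w g = D.of (Dm.cst (om g)) := rfl
  rw [h, D.sq_of]
  rfl

end dm

theorem fma : FmaStmt := by
  classical
  intro ℓ _ F V A₀ _ _ _ _ _ _ W α₀ D₀ D lf G hV hW hD hf
  have hom : ∀ g : W, aw α₀ W g = α₀ (g : V) := fun g => rfl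
  have hinv : ∀ v : V, α₀ v * α₀ v⁻¹ = 1 := fun v => by rw [← map_mul, mul_inv_cancel, map_one]
  have hinv' : ∀ v : V, α₀ v⁻¹ * α₀ v = 1 := fun v => by rw [← map_mul, inv_mul_cancel, map_one]
  have q0 : ∀ u, D₀.sq (lf u) 0 = α₀ u := hf.q0
  have qG : ∀ u, D₀.sq (G u) 0 = D u := hf.qG
  refine ⟨?_, ?_⟩
  · intro Ω _ _ b c hfr ω u v hu hv
    obtain ⟨z, hz⟩ := hf.cc u v
    have h1 : D₀.sq (lf u * lf v - lf v * lf u) 1 = D₀.sq ((PowerSeries.X : F⟦X⟧) ^ 2 • z) 1 := by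
      rw [hz]
    rw [sq_sub, sq_mul1, sq_mul1, sq_X21, q0, q0] at h1
    have hcu : ∀ n : A₀, c ω (α₀ u * n * α₀ u⁻¹) = c ω n := by
      intro n
      have h2 := hfr.2.1 ((u, u) : V × V) ω n
      rw [hu] at h2
      have h3 : bw F α₀ (u, u) n = α₀ u * n * α₀ u⁻¹ := by
        change α₀ u * (n * α₀ u⁻¹) = _
        rw [mul_assoc]
      rw [h3] at h2
      exact h2
    have hcv : ∀ n : A₀, c ω (α₀ v * n * α₀ v⁻¹) = c ω n := by
      intro n
      have h2 := hfr.2.1 ((v, v) : V × V) ω n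
      rw [hv] at h2
      have h3 : bw F α₀ (v, v) n = α₀ v * n * α₀ v⁻¹ := by
        change α₀ v * (n * α₀ v⁻¹) = _
        rw [mul_assoc]
      rw [h3] at h2
      exact h2
    set p := D₀.sq (lf u) 1 with hp
    set q := D₀.sq (lf v) 1 with hq
    have h4 : D₀.m 1 (α₀ u) (α₀ v) - D₀.m 1 (α₀ v) (α₀ u) =
        α₀ v * p + q * α₀ u - α₀ u * q - p * α₀ v := by
      have h5 : D₀.m 1 (α₀ u) (α₀ v) - D₀.m 1 (α₀ v) (α₀ u) -
          (α₀ v * p + q * α₀ u - α₀ u * q - p * α₀ v) = 0 := by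
        rw [← h1]
        abel
      exact sub_eq_zero.1 h5
    have e1 : α₀ (u * v)⁻¹ = α₀ u⁻¹ * α₀ v⁻¹ := by
      rw [mul_inv, map_mul]
    have e2 : α₀ (u * v)⁻¹ = α₀ v⁻¹ * α₀ u⁻¹ := by
      rw [mul_inv_rev, map_mul]
    have t1 : α₀ v * p * α₀ (u * v)⁻¹ = α₀ v * (p * α₀ u⁻¹) * α₀ v⁻¹ := by
      rw [e1]
      simp only [mul_assoc]
    have t2 : q * α₀ u * α₀ (u * v)⁻¹ = q * α₀ v⁻¹ := by
      rw [e1, mul_assoc, ← mul_assoc (α₀ u), hinv, one_mul]
    have t3 : α₀ u * q * α₀ (u * v)⁻¹ = α₀ u * (q * α₀ v⁻¹) * α₀ u⁻¹ := by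
      rw [e2]
      simp only [mul_assoc]
    have t4 : p * α₀ v * α₀ (u * v)⁻¹ = p * α₀ u⁻¹ := by
      rw [e2, mul_assoc, ← mul_assoc (α₀ v), hinv, one_mul]
    rw [h4, sub_mul, sub_mul, add_mul, t1, t2, t3, t4, map_sub, map_sub, map_add, hcu, hcv]
    ring
  · intro u huW
    set s := D₀.sq (lf u) 1 with hs
    set p := s * α₀ u⁻¹ with hp
    -- powers
    have hpow0 : ∀ n : ℕ, D₀.sq (lf u ^ n) 0 = α₀ (u ^ n) := by
      intro n
      induction n with
      | zero => rw [pow_zero, sq_one0, pow_zero, map_one]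
      | succ n ih => rw [pow_succ, sq_mul0, ih, q0, pow_succ, map_mul]
    have hpow1 : ∀ n : ℕ, D₀.sq (lf u ^ n) 1 * α₀ (u ^ n)⁻¹ =
        ∑ j ∈ Finset.range n, (α₀ (u ^ j) * (p * α₀ (u ^ j)⁻¹) +
          D₀.m 1 (α₀ (u ^ j)) (α₀ u) * α₀ (u ^ (j + 1))⁻¹) := by
      intro n
      induction n with
      | zero => rw [pow_zero, sq_one1, zero_mul, Finset.range_zero, Finset.sum_empty]
      | succ n ih =>
        have e1 : α₀ (u ^ (n + 1))⁻¹ = α₀ u⁻¹ * α₀ (u ^ n)⁻¹ := by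
          rw [pow_succ, mul_inv_rev, map_mul]
        have t1 : α₀ (u ^ n) * D₀.sq (lf u) 1 * α₀ (u ^ (n + 1))⁻¹ =
            α₀ (u ^ n) * (p * α₀ (u ^ n)⁻¹) := by
          rw [e1, hp, ← hs]
          simp only [mul_assoc]
        have t2 : D₀.sq (lf u ^ n) 1 * α₀ u * α₀ (u ^ (n + 1))⁻¹ =
            D₀.sq (lf u ^ n) 1 * α₀ (u ^ n)⁻¹ := by
          rw [e1, mul_assoc, ← mul_assoc (α₀ u), hinv, one_mul]
        rw [Finset.sum_range_succ, ← ih, pow_succ (lf u), sq_mul1, q0, hpow0, add_mul, add_mul,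
          t1, t2]
        abel
    -- the relation for the power `ℓ`
    have hD' : ∀ v : V, α₀ v * D u * α₀ v⁻¹ = D u := by
      intro v
      have h1 := hD u v trivial
      change α₀ v * (D u * α₀ v⁻¹) = D u at h1
      rw [mul_assoc]
      exact h1
    have hl1 : D₀.sq (lf u ^ ℓ) 1 = α₀ (u ^ ℓ) * D u := by
      rw [hf.pl u (hW u), sq_w_mul, sq_add, sq_one1, sq_X1, qG, zero_add]
      rfl
    have hsum := hpow1 ℓ
    rw [hl1, hD', Finset.sum_add_distrib] at hsum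
    have hgoal : ∑ j ∈ Finset.range ℓ, D₀.m 1 (α₀ (u ^ j)) (α₀ u) * α₀ (u ^ (j + 1))⁻¹ - D u =
        -∑ j ∈ Finset.range ℓ, α₀ (u ^ j) * (p * α₀ (u ^ j)⁻¹) := by
      rw [hsum]
      abel
    rw [hgoal]
    refine Submodule.neg_mem _ (Submodule.subset_span ?_)
    have hcop : ∀ i j : ℕ, i < ℓ → j < ℓ → u ^ ((i : ℤ) - j) ∈ W → i = j := by
      intro i j hi hj hij
      by_contra hne
      have hp0 : Nat.Prime ℓ := Fact.out
      have h1 : IsCoprime ((i : ℤ) - j) (ℓ : ℤ) := by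
        rw [isCoprime_comm, Int.isCoprime_iff_gcd_eq_one]
        have h2 : ¬ (ℓ : ℤ) ∣ ((i : ℤ) - j) := by
          intro h3
          have h4 : ((i : ℤ) - j) = 0 := by
            refine Int.eq_zero_of_abs_lt_dvd h3 ?_
            rw [abs_lt]
            constructor <;> omega
          omega
        exact (Int.isCoprime_iff_gcd_eq_one).1 ((Nat.prime_iff_prime_int.1 hp0).coprime_iff_not_dvd.2 h2)
      obtain ⟨x, y, hxy⟩ := h1
      have h5 : u = (u ^ ((i : ℤ) - j)) ^ x * (u ^ (ℓ : ℤ)) ^ y := by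
        rw [← zpow_mul, ← zpow_mul, ← zpow_add, mul_comm ((i : ℤ) - j), mul_comm (ℓ : ℤ), hxy,
          zpow_one]
      refine huW ?_
      rw [h5]
      refine W.mul_mem (W.zpow_mem hij x) (W.zpow_mem ?_ y)
      rw [zpow_natCast]
      exact hW u
    have hP'W : Subgroup.zpowers (u ^ ℓ) ≤ W := by
      rw [Subgroup.zpowers_le]
      exact hW u
    have hinj : ∀ i ∈ Finset.range ℓ, ∀ j ∈ Finset.range ℓ, u ^ i = u ^ j → i = j := by
      intro i hi j hj hij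
      refine hcop i j (Finset.mem_range.1 hi) (Finset.mem_range.1 hj) ?_
      rw [zpow_sub, zpow_natCast, zpow_natCast, hij, mul_inv_cancel]
      exact W.one_mem
    refine ⟨Subgroup.zpowers (u ^ ℓ), (Finset.range ℓ).image (fun j => u ^ j), p, ?_, ?_, ?_, ?_⟩
    · refine lt_of_le_of_ne ?_ ?_
      · rw [Subgroup.zpowers_le]
        exact Subgroup.npow_mem_zpowers u ℓ
      · intro h
        refine huW (hP'W ?_)
        rw [h]
        exact Subgroup.mem_zpowers u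
    · refine ⟨?_, ?_⟩
      · intro x hx
        obtain ⟨j, _, rfl⟩ := Finset.mem_image.1 hx
        exact Subgroup.npow_mem_zpowers u j
      · intro x hx
        obtain ⟨k, rfl⟩ := Subgroup.mem_zpowers_iff.1 hx
        have hp0 : Nat.Prime ℓ := Fact.out
        have hl0 : (0 : ℤ) < ℓ := by exact_mod_cast hp0.pos
        have hm0 := Int.emod_nonneg k hl0.ne'
        have hm1 := Int.emod_lt_of_pos k hl0
        have hm2 : ((k % (ℓ : ℤ)).toNat : ℤ) = k % (ℓ : ℤ) := Int.toNat_of_nonneg hm0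
        refine ⟨u ^ (k % (ℓ : ℤ)).toNat, ⟨?_, ?_⟩, ?_⟩
        · refine Finset.mem_image.2 ⟨_, Finset.mem_range.2 ?_, rfl⟩
          omega
        · have h1 : (u ^ (k % (ℓ : ℤ)).toNat)⁻¹ * u ^ k = (u ^ ℓ) ^ (k / (ℓ : ℤ)) := by
            rw [← zpow_natCast u (k % (ℓ : ℤ)).toNat, hm2, ← zpow_neg, ← zpow_add,
              ← zpow_natCast u ℓ, ← zpow_mul]
            congr 1
            have h2 := Int.emod_add_mul_ediv k ℓ
            linarith
          rw [h1]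
          exact Subgroup.zpow_mem _ (Subgroup.mem_zpowers _) _
        · rintro y ⟨hy, hy'⟩
          obtain ⟨j, hj, rfl⟩ := Finset.mem_image.1 hy
          have h3 : j = (k % (ℓ : ℤ)).toNat := by
            refine hcop _ _ (Finset.mem_range.1 hj) (by omega) ?_
            have h4 : u ^ ((j : ℤ) - ((k % (ℓ : ℤ)).toNat : ℤ)) =
                ((u ^ j)⁻¹ * u ^ k)⁻¹ * (u ^ ℓ) ^ (k / (ℓ : ℤ)) := by
              rw [mul_inv_rev, inv_inv, ← zpow_natCast u j, ← zpow_natCast u ℓ, ← zpow_mul,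
                ← zpow_neg, ← zpow_add, ← zpow_add, hm2]
              congr 1
              have h2 := Int.emod_add_mul_ediv k ℓ
              linarith
            rw [h4]
            exact W.mul_mem (W.inv_mem (hP'W hy')) (W.zpow_mem (hW u) _)
          rw [h3]
    · intro h hh
      have hhW : h ∈ W := hP'W hh
      change α₀ h * (p * α₀ h⁻¹) = p
      have h1 : D₀.sq (D₀.w ⟨h, hhW⟩ * lf u) 1 = D₀.sq (lf u * D₀.w ⟨h, hhW⟩) 1 := by
        rw [hf.cm u ⟨h, hhW⟩]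
      rw [sq_w_mul, sq_mul1, sq_w1, mul_zero, zero_add, sq_w0, D₀.m_om_right, add_zero] at h1
      have h2 : α₀ h * s = s * α₀ h := h1
      have h3 : α₀ u⁻¹ * α₀ h⁻¹ = α₀ h⁻¹ * α₀ u⁻¹ := by
        rw [← map_mul, ← map_mul, mul_comm]
      rw [hp, mul_assoc s, h3, ← mul_assoc, ← mul_assoc, h2, mul_assoc s, hinv, mul_one]
    · rw [Finset.sum_image hinj]
      rfl

end Pool.Agent.PST.H53
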